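import Pool.Agent.Helper666.FinGen.Final

/-!
# Three-point lines of matroids generated by small matroids

Complete classes, (strongly) base-orderable matroids: `Pool.Agent.Helper666.FinGen.Defs`.

* `lines_le`: a simple matroid on `V` (of any rank) whose rank function is expressible by
  submodular functions of at most `c` elements has at most `c |V|` three-point lines.
* `exists_sbo`: for `n ≥ 1` there is a simple strongly base-orderable matroid of rank three on
  `7 n` points with at least `n ^ 2` three-point lines.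
-/

namespace Pool.Agent.Y136.RT

open Set Pool.Agent.Helper666.FinGen

/-- `M` is a simple matroid with ground set the whole type: all sets with at most two elements are
independent. -/
def IsSimple {V : Type} (M : Matroid V) : Prop := M.E = univ ∧ ∀ u v : V, M.Indep {u, v}

/-- The three-point lines of `M`: the dependent flats with exactly three elements. -/
def threePointLines {V : Type} (M : Matroid V) : Set (Set V) :=
  {l | l.ncard = 3 ∧ M.IsFlat l ∧ ¬ M.Indep l}

/-- The smallest complete class containing the class `P`. -/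
def GeneratedBy (P : MatClass) : MatClass := fun α N =>
  ∀ C : MatClass, IsComplete C → (∀ (β : Type) (M : Matroid β), P β M → C β M) → C α N

/-- The (finite) matroids with at most `c` elements. -/
def AtMost (c : ℕ) : MatClass := fun _ M => M.Finite ∧ M.E.ncard ≤ c

/-- The simple strongly base-orderable matroids of rank three. -/
def SBO3 : MatClass := fun α M => SBO α M ∧ IsSimple M ∧ M.eRank = 3

section lines

variable {V : Type} [Fintype V] {M : Matroid V}

theorem closure_pair (hs : IsSimple M) [M.Finite] {l : Set V} (hl : l ∈ threePointLines M)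
    {a b : V} (hab : a ≠ b) (ha : a ∈ l) (hb : b ∈ l) : M.closure {a, b} = l := by
  have hsub : ({a, b} : Set V) ⊆ l := by
    rintro x (rfl | rfl)
    · exact ha
    · exact hb
  have hfl := hl.2.1.closure
  have h1 : M.closure {a, b} ⊆ l := by
    rw [← hfl]
    exact M.closure_subset_closure hsub
  refine subset_antisymm h1 ?_
  intro x hx
  by_contra hxc
  -- then `{a, b, x}` is independent and equal to `l`
  have hxa : x ≠ a := fun h => hxc (by
    rw [h]
    exact M.mem_closure_of_mem (by simp) (by rw [hs.1]; exact subset_univ _))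
  have hxb : x ≠ b := fun h => hxc (by
    rw [h]
    exact M.mem_closure_of_mem (by simp) (by rw [hs.1]; exact subset_univ _))
  have hx3 : M.Indep (insert x {a, b}) := by
    refine ((hs.2 a b).notMem_closure_iff_of_notMem ?_ (by rw [hs.1]; exact mem_univ _)).1 hxc
    simp [hxa, hxb]
  have hins : insert x ({a, b} : Set V) = l := by
    apply eq_of_subset_of_ncard_le
    · rintro y (rfl | hy)
      · exact hx
      · exact hsub hy
    · rw [hl.1, ncard_eq_three.2 ⟨x, a, b, hxa, hxb, hab, rfl⟩]
    · exact toFinite _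
  exact hl.2.2 (hins ▸ hx3)

theorem lines_le [DecidableEq V] (hs : IsSimple M) [M.Finite] {c : ℕ} (hM : Expr c M) :
    (threePointLines M).ncard ≤ c * Fintype.card V := by
  classical
  have hfinL : (threePointLines M).Finite := toFinite _
  let Λ : Finset (Finset V) := Finset.univ.filter fun l => (↑l : Set V) ∈ threePointLines M
  have hΛ : ∀ l, l ∈ Λ ↔ (↑l : Set V) ∈ threePointLines M := by
    intro l
    simp [Λ]
  have h3 : ∀ l ∈ Λ, l.card = 3 := by
    intro l hl
    have := ((hΛ l).1 hl).1
    rwa [ncard_coe_finset] at this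
  have hcl : ∀ l ∈ Λ, ∀ a b, a ≠ b → a ∈ l → b ∈ l → M.closure {a, b} = ↑l := by
    intro l hl a b hab ha hb
    exact closure_pair hs ((hΛ l).1 hl) hab (by exact_mod_cast ha) (by exact_mod_cast hb)
  have r1 : ∀ v, rk M {v} = 1 := by
    intro v
    have h1 : M.Indep {v} := by
      have := hs.2 v v
      simpa using this
    rw [rk_indep M h1, ncard_singleton]
    rfl
  have r2 : ∀ u v, u ≠ v → rk M {u, v} = 2 := by
    intro u v huv
    rw [rk_indep M (hs.2 u v), ncard_pair huv]
    rfl
  have hpair : ∀ l ∈ Λ, ∃ a b, a ≠ b ∧ a ∈ l ∧ b ∈ l := by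
    intro l hl
    obtain ⟨a, b, d, hab, -, -, hl3⟩ := Finset.card_eq_three.mp (h3 l hl)
    exact ⟨a, b, hab, by simp [hl3], by simp [hl3]⟩
  have rl : ∀ l ∈ Λ, rk M (↑l : Set V) = 2 := by
    intro l hl
    obtain ⟨a, b, hab, ha, hb⟩ := hpair l hl
    apply le_antisymm
    · by_contra hcon
      push Not at hcon
      have h1 : M.Indep (↑l : Set V) := indep_of_ncard_le M (Set.toFinite _) (by
        rw [Set.ncard_coe_finset, h3 l hl]
        push_cast
        omega)
      exact ((hΛ l).1 hl).2.2 h1
    · rw [← r2 a b hab]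
      apply rk_mono
      rintro x (rfl | rfl)
      · exact_mod_cast ha
      · exact_mod_cast hb
  have rlv : ∀ l ∈ Λ, ∀ v, v ∉ l → 3 ≤ rk M ((↑l : Set V) ∪ {v}) := by
    intro l hl v hv
    obtain ⟨a, b, hab, ha, hb⟩ := hpair l hl
    have hva : v ≠ a := fun h => hv (h ▸ ha)
    have hvb : v ≠ b := fun h => hv (h ▸ hb)
    have h1 : v ∉ M.closure {a, b} := by
      rw [hcl l hl a b hab ha hb]
      exact_mod_cast hv
    have h2 : M.Indep (insert v {a, b}) := by
      refine ((hs.2 a b).notMem_closure_iff_of_notMem ?_ (by rw [hs.1]; exact mem_univ _)).1 h1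
      simp [hva, hvb]
    have h4 := rk_indep M h2
    rw [ncard_eq_three.2 ⟨v, a, b, hva, hvb, hab, rfl⟩] at h4
    have h5 : rk M (insert v {a, b}) ≤ rk M ((↑l : Set V) ∪ {v}) := by
      apply rk_mono
      rintro x (rfl | rfl | rfl)
      · exact Or.inr rfl
      · exact Or.inl (by exact_mod_cast ha)
      · exact Or.inl (by exact_mod_cast hb)
    rw [h4] at h5
    exact_mod_cast h5
  have rll : ∀ l ∈ Λ, ∀ l' ∈ Λ, l ≠ l' → 3 ≤ rk M ((↑l : Set V) ∪ ↑l') := by
    intro l hl l' hl' hne
    obtain ⟨v, hv, hvl⟩ : ∃ v ∈ l', v ∉ l := by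
      by_contra hcon
      push Not at hcon
      have h4 : l' = l := Finset.eq_of_subset_of_card_le hcon (by rw [h3 l hl, h3 l' hl'])
      exact hne h4.symm
    refine (rlv l hl v hvl).trans ?_
    apply rk_mono
    rintro x (hx | rfl)
    · exact Or.inl hx
    · exact Or.inr (by exact_mod_cast hv)
  have hmeet : ∀ l ∈ Λ, ∀ l' ∈ Λ, l ≠ l' → ∀ v, v ∈ l → v ∈ l' → l ∩ l' = {v} := by
    intro l hl l' hl' hne v hv hv'
    ext x
    simp only [Finset.mem_inter, Finset.mem_singleton]
    constructor
    · rintro ⟨hx, hx'⟩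
      by_contra hxv
      apply hne
      have h4 := hcl l hl x v hxv hx hv
      rw [hcl l' hl' x v hxv hx' hv'] at h4
      exact (Finset.coe_injective h4).symm
    · rintro rfl
      exact ⟨hv, hv'⟩
  have hcore := core M hs.1 Λ h3 hmeet r1 (fun u v huv => (r2 u v huv).ge) rl rlv rll hM
  refine le_trans ?_ hcore
  have himg : threePointLines M = (fun l : Finset V => (↑l : Set V)) '' (↑Λ : Set (Finset V)) := by
    ext l
    constructor
    · intro hl
      refine ⟨l.toFinset, ?_, by simp⟩
      rw [Finset.mem_coe, hΛ]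
      simpa using hl
    · rintro ⟨l', hl', rfl⟩
      exact (hΛ l').1 (Finset.mem_coe.1 hl')
  rw [himg, ncard_image_of_injective _ Finset.coe_injective, ncard_coe_finset]

end lines

/-- **Strongly base-orderable matroids of rank three with many three-point lines.** -/
theorem exists_sbo {n : ℕ} (hn : 0 < n) : ∃ M : Matroid (Fin (7 * n)),
    SBO3 (Fin (7 * n)) M ∧ n ^ 2 ≤ (threePointLines M).ncard := by
  classical
  let Λ : Finset (Finset (Fin (7 * n))) := Finset.univ.image (line n)
  have hmem : ∀ l, l ∈ Λ ↔ ∃ x, line n x = l := by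
    intro l
    simp [Λ]
  have h3 : ∀ l ∈ Λ, l.card = 3 := by
    intro l hl
    obtain ⟨x, rfl⟩ := (hmem l).mp hl
    exact line_card x
  have hlin : ∀ l ∈ Λ, ∀ l' ∈ Λ, ∀ a b, a ≠ b → a ∈ l → b ∈ l → a ∈ l' → b ∈ l' → l = l' := by
    intro l hl l' hl' a b hab ha hb ha' hb'
    obtain ⟨x, rfl⟩ := (hmem l).mp hl
    obtain ⟨y, rfl⟩ := (hmem l').mp hl'
    rw [line_meet x y a b hab ha hb ha' hb']
  have hinj : Function.Injective (line n) := by
    intro x y hxy
    obtain ⟨a, b, c, hab, hac, hbc, hl⟩ := Finset.card_eq_three.mp (line_card x)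
    apply line_meet x y a b hab
    · simp [hl]
    · simp [hl]
    · rw [← hxy]; simp [hl]
    · rw [← hxy]; simp [hl]
  have hcard : Λ.card = n * n := by
    rw [Finset.card_image_of_injective _ hinj]
    simp
  obtain ⟨M, hME, hM⟩ := exists_lineMatroid Λ h3 hlin
  have hfin : M.Finite := finite_matroid M
  obtain ⟨I, hI, hIΛ⟩ : ∃ I : Finset (Fin (7 * n)), I.card = 3 ∧ I ∉ Λ := by
    refine ⟨{⟨0, by omega⟩, ⟨4 * n, by omega⟩, ⟨6 * n, by omega⟩}, ?_, ?_⟩
    · apply Finset.card_eq_three.mpr
      refine ⟨_, _, _, ?_, ?_, ?_, rfl⟩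
      · intro h
        rw [Fin.ext_iff] at h
        simp only at h
        omega
      · intro h
        rw [Fin.ext_iff] at h
        simp only at h
        omega
      · intro h
        rw [Fin.ext_iff] at h
        simp only at h
        omega
    · intro h
      obtain ⟨x, hx⟩ := (hmem _).mp h
      have h0 : (⟨0, by omega⟩ : Fin (7 * n)) ∈ line n x := by rw [hx]; simp
      rw [mem_line] at h0
      have h1 := x.1.2
      have h2 := x.2.2
      simp only at h0
      omega
  have hex : ∃ I : Finset (Fin (7 * n)), I.card = 3 ∧ I ∉ Λ := ⟨I, hI, hIΛ⟩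
  have hs : IsSimple M := by
    refine ⟨hME, fun u v => ?_⟩
    have h1 : M.Indep (↑({u, v} : Finset (Fin (7 * n))) : Set (Fin (7 * n))) := (hM _).2
      ⟨(Finset.card_le_two).trans (by norm_num), fun h => by
        have h4 := h3 _ h
        have h5 := Finset.card_le_two (a := u) (b := v)
        omega⟩
    simpa using h1
  refine ⟨M, ⟨⟨hfin, ?_⟩, hs, ?_⟩, ?_⟩
  · intro B₁ B₂ h₁ h₂
    refine line_exch hlin hM hex (fun v => (((v : ℕ) : ℤ) - 4 * n)) ?_ ?_ B₁ B₂ h₁ h₂
    · intro a b hab
      apply Fin.ext
      simp only at hab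
      omega
    · intro l hl
      obtain ⟨x, rfl⟩ := (hmem l).mp hl
      exact line_sum x
  · have hB : M.IsBase (↑I : Set (Fin (7 * n))) := (line_isBase_iff hM hex I).2 ⟨hI, hIΛ⟩
    rw [← hB.encard_eq_eRank, encard_coe_eq_coe_finsetCard, hI]
    rfl
  · rw [sq, ← hcard, ← ncard_coe_finset Λ,
      ← ncard_image_of_injective (↑Λ : Set (Finset (Fin (7 * n)))) (Finset.coe_injective)]
    refine ncard_le_ncard ?_ (toFinite _)
    rintro _ ⟨l, hl, rfl⟩
    have hl : l ∈ Λ := hl
    refine ⟨by rw [ncard_coe_finset, h3 l hl], ?_, fun h => ((hM l).1 h).2 hl⟩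
    rw [Matroid.isFlat_iff_closure_eq]
    refine subset_antisymm ?_ (M.subset_closure _ (by rw [hME]; exact subset_univ _))
    intro v hv
    by_contra hvl
    have hvl' : v ∉ l := by exact_mod_cast hvl
    have h1 := line_rk_insert h3 hlin hM l hl v hvl'
    have h2 := line_rk_line h3 hM l hl
    have h4 : M.eRk ((↑l : Set (Fin (7 * n))) ∪ {v}) = M.eRk (↑l : Set (Fin (7 * n))) := by
      rw [← M.eRk_closure_eq (↑l ∪ {v}), ← M.eRk_closure_eq ↑l, union_singleton,
        Matroid.closure_insert_eq_of_mem_closure hv]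
    have h5 : rk M ((↑l : Set (Fin (7 * n))) ∪ {v}) = rk M (↑l : Set (Fin (7 * n))) := by
      unfold rk
      rw [h4]
    omega

/-! ### Complete classes generated by matroids of bounded size -/

theorem generatedBy_expr {c : ℕ} (hc : 2 ≤ c) {α : Type} {N : Matroid α}
    (h : GeneratedBy (AtMost c) α N) : N.Finite ∧ Expr c N := by
  refine h (ExprClass c) (exprClass_complete hc) fun β M hM => ?_
  have := hM.1
  exact ⟨hM.1, Expr.base M hM.2⟩

theorem GeneratedBy.mono {P Q : MatClass} (h : ∀ (α : Type) (M : Matroid α), P α M → Q α M)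
    {α : Type} {N : Matroid α} (hN : GeneratedBy P α N) : GeneratedBy Q α N :=
  fun C hC hQ => hN C hC fun β M hM => hQ β M (h β M hM)

theorem generatedBy_self {P : MatClass} {α : Type} {N : Matroid α} (h : P α N) :
    GeneratedBy P α N := fun _ _ hP => hP α N h

/-- a simple matroid generated by matroids with at most `c` elements has at most `c |V|`
three-point lines -/
theorem lines_le_of_generated {c : ℕ} (hc : 2 ≤ c) {V : Type} [Finite V] {N : Matroid V}
    (hs : IsSimple N) (h : GeneratedBy (AtMost c) V N) :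
    (threePointLines N).ncard ≤ c * Nat.card V := by
  classical
  have := Fintype.ofFinite V
  obtain ⟨h1, h2⟩ := generatedBy_expr hc h
  rw [Nat.card_eq_fintype_card]
  exact lines_le hs h2

/-- strongly base-orderable matroids of rank three which are not generated by small matroids -/
theorem exists_sbo3_not_generated {c n : ℕ} (hc : 2 ≤ c) (hn : 7 * c < n) :
    ∃ M : Matroid (Fin (7 * n)), SBO3 (Fin (7 * n)) M ∧
      ¬ GeneratedBy (AtMost c) (Fin (7 * n)) M := by
  obtain ⟨M, hM, hl⟩ := exists_sbo (n := n) (by omega)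
  refine ⟨M, hM, fun h => ?_⟩
  have h1 := hl.trans (lines_le_of_generated hc hM.2.1 h)
  rw [Nat.card_eq_fintype_card, Fintype.card_fin] at h1
  have h2 : n * n ≤ (7 * c) * n := by nlinarith
  have h3 : n ≤ 7 * c := Nat.le_of_mul_le_mul_right h2 (by omega)
  omega

end Pool.Agent.Y136.RT
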